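import Mathlib

/-!
# Integer matrices `A` with `det A = 1 = det A^{∘2}` and no entry in `{-1, 0, 1}`

An explicit description of the set of all such matrices: the third row is given by an explicit
formula in terms of the first two rows and of a factorisation `2 U V` of an explicit integer; the
set is infinite.
-/

set_option autoImplicit false

namespace Pool.Agent.Results.MP_197ffd_nt.Description

/-- The set `S`: integer `3 × 3` matrices, all entries of absolute value at least `2`, such that
the determinants of `A` and of the entrywise square of `A` are both `1`. -/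
def S : Set (Matrix (Fin 3) (Fin 3) ℤ) :=
  {A | (∀ i j, 2 ≤ |A i j|) ∧ A.det = 1 ∧ (A.map (fun x => x ^ 2)).det = 1}

/-- The three minors of the first two rows `(a₁, a₂, a₃)`, `(a₄, a₅, a₆)` of `A`:
`(a₂a₆ - a₃a₅, a₃a₄ - a₁a₆, a₁a₅ - a₂a₄)`. -/
def minor (A : Matrix (Fin 3) (Fin 3) ℤ) : Fin 3 → ℤ :=
  ![A 0 1 * A 1 2 - A 0 2 * A 1 1, A 0 2 * A 1 0 - A 0 0 * A 1 2, A 0 0 * A 1 1 - A 0 1 * A 1 0]

/-- The three permanental minors of the first two rows of `A`:
`(a₂a₆ + a₃a₅, a₃a₄ + a₁a₆, a₁a₅ + a₂a₄)`. -/
def perm (A : Matrix (Fin 3) (Fin 3) ℤ) : Fin 3 → ℤ :=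
  ![A 0 1 * A 1 2 + A 0 2 * A 1 1, A 0 2 * A 1 0 + A 0 0 * A 1 2, A 0 0 * A 1 1 + A 0 1 * A 1 0]

/-- The product of the three minors. -/
def P (A : Matrix (Fin 3) (Fin 3) ℤ) : ℤ := minor A 0 * minor A 1 * minor A 2

/-- The product of the three permanental minors. -/
def D (A : Matrix (Fin 3) (Fin 3) ℤ) : ℤ := perm A 0 * perm A 1 * perm A 2

/-- The third row of `A` is given by the first two rows and by integers `U`, `V` with
`2 U V = P + D`, through `P · (a₇, a₈, a₉) = U · (a₁, a₂, a₃) + V · (a₄, a₅, a₆) - (p₂p₃, p₃p₁, p₁p₂)`,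
`pᵢ` the permanental minors. -/
def ThirdRow (A : Matrix (Fin 3) (Fin 3) ℤ) : Prop :=
  ∃ U V : ℤ, 2 * U * V = P A + D A ∧
    P A * A 2 0 = U * A 0 0 + V * A 1 0 - perm A 1 * perm A 2 ∧
    P A * A 2 1 = U * A 0 1 + V * A 1 1 - perm A 2 * perm A 0 ∧
    P A * A 2 2 = U * A 0 2 + V * A 1 2 - perm A 0 * perm A 1

section proof

lemma abs_dvd_aux {b c k : ℤ} (hb : b ≠ 0) (h : c * k = b) : |c| ≤ |b| := by
  have hk : k ≠ 0 := by
    rintro rfl
    exact hb (by simpa using h.symm)
  have h1 : 1 ≤ |k| := Int.one_le_abs hk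
  calc |c| = |c| * 1 := (mul_one _).symm
    _ ≤ |c| * |k| := mul_le_mul_of_nonneg_left h1 (abs_nonneg _)
    _ = |b| := by rw [← abs_mul, h]

/-- A vanishing minor is impossible. -/
lemma minor_ne {a b c d e f x y z : ℤ} (hb : 2 ≤ |b|) (hf : 2 ≤ |f|)
    (h1 : (b * f - c * e) * x + (c * d - a * f) * y + (a * e - b * d) * z = 1)
    (h2 : (b * f - c * e) * (b * f + c * e) * x ^ 2 + (c * d - a * f) * (c * d + a * f) * y ^ 2
      + (a * e - b * d) * (a * e + b * d) * z ^ 2 = 1) : a * e - b * d ≠ 0 := by
  intro h0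
  have hb0 : b ≠ 0 := by
    rintro rfl
    simp at hb
  have e1 : (b * f - c * e) * (b * x - a * y) = b := by
    linear_combination b * h1 - (b * z - c * y) * h0
  have e2 : ((b * f - c * e) * (b * x - a * y)) * ((b * f + c * e) * (b * x + a * y)) = b ^ 2 := by
    linear_combination b ^ 2 * h2 - (b ^ 2 * (a * e + b * d) * z ^ 2
      - c ^ 2 * y ^ 2 * (a * e + b * d)) * h0
  have e3 : (b * f + c * e) * (b * x + a * y) = b := by
    rw [e1] at e2
    have : b * ((b * f + c * e) * (b * x + a * y)) = b * b := by rw [e2]; ring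
    exact mul_left_cancel₀ hb0 this
  have i1 := abs_dvd_aux hb0 e1
  have i2 := abs_dvd_aux hb0 e3
  have i3 : 2 * (|b| * |f|) ≤ |b| + |b| := by
    calc 2 * (|b| * |f|) = |(b * f - c * e) + (b * f + c * e)| := by
          have : (b * f - c * e) + (b * f + c * e) = 2 * (b * f) := by ring
          rw [this, abs_mul, abs_mul]; simp
      _ ≤ |b * f - c * e| + |b * f + c * e| := abs_add_le _ _
      _ ≤ |b| + |b| := add_le_add i1 i2
  nlinarith

lemma key {a b c d e f x y z : ℤ}
    (hadm : 2 ≤ |a| ∧ 2 ≤ |b| ∧ 2 ≤ |c| ∧ 2 ≤ |d| ∧ 2 ≤ |e| ∧ 2 ≤ |f|) :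
    ((b * f - c * e) * x + (c * d - a * f) * y + (a * e - b * d) * z = 1 ∧
      (b * f - c * e) * (b * f + c * e) * x ^ 2 + (c * d - a * f) * (c * d + a * f) * y ^ 2
      + (a * e - b * d) * (a * e + b * d) * z ^ 2 = 1) ↔
    ((b * f - c * e) * (c * d - a * f) * (a * e - b * d) ≠ 0 ∧ ∃ U V : ℤ,
      2 * U * V = (b * f - c * e) * (c * d - a * f) * (a * e - b * d)
        + (b * f + c * e) * (c * d + a * f) * (a * e + b * d) ∧
      (b * f - c * e) * (c * d - a * f) * (a * e - b * d) * x
        = U * a + V * d - (c * d + a * f) * (a * e + b * d) ∧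
      (b * f - c * e) * (c * d - a * f) * (a * e - b * d) * y
        = U * b + V * e - (a * e + b * d) * (b * f + c * e) ∧
      (b * f - c * e) * (c * d - a * f) * (a * e - b * d) * z
        = U * c + V * f - (b * f + c * e) * (c * d + a * f)) := by
  obtain ⟨ha, hb, hc, hd, he, hf⟩ := hadm
  constructor
  · rintro ⟨h1, h2⟩
    have n3 : a * e - b * d ≠ 0 := minor_ne hb hf h1 h2
    have n1 : b * f - c * e ≠ 0 := by
      apply minor_ne (a := b) (b := c) (c := a) (d := e) (e := f) (f := d) (x := y) (y := z)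
        (z := x) hc hd
      · linear_combination h1
      · linear_combination h2
    have n2 : c * d - a * f ≠ 0 := by
      apply minor_ne (a := c) (b := a) (c := b) (d := f) (e := d) (f := e) (x := z) (y := x)
        (z := y) ha he
      · linear_combination h1
      · linear_combination h2
    refine ⟨mul_ne_zero (mul_ne_zero n1 n2) n3,
      (b * f - c * e) * (b * f + c * e) * d * x + (c * d - a * f) * (c * d + a * f) * e * y
        + (a * e - b * d) * (a * e + b * d) * f * z,
      (b * f - c * e) * (b * f + c * e) * a * x + (c * d - a * f) * (c * d + a * f) * b * y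
        + (a * e - b * d) * (a * e + b * d) * c * z, ?_, ?_, ?_, ?_⟩
    · linear_combination (b * f - c * e) * (c * d - a * f) * (a * e - b * d) * h2
        + (b * f + c * e) * (c * d + a * f) * (a * e + b * d)
          * (((b * f - c * e) * x + (c * d - a * f) * y + (a * e - b * d) * z) + 1) * h1
    · linear_combination (-(c * d + a * f) * (a * e + b * d)) * h1
    · linear_combination (-(a * e + b * d) * (b * f + c * e)) * h1
    · linear_combination (-(b * f + c * e) * (c * d + a * f)) * h1
  · rintro ⟨hP, U, V, hUV, hx, hy, hz⟩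
    have h1 : (b * f - c * e) * x + (c * d - a * f) * y + (a * e - b * d) * z = 1 := by
      apply mul_left_cancel₀ hP
      linear_combination (b * f - c * e) * hx + (c * d - a * f) * hy + (a * e - b * d) * hz
    have hU : (b * f - c * e) * (b * f + c * e) * d * x + (c * d - a * f) * (c * d + a * f) * e * y
        + (a * e - b * d) * (a * e + b * d) * f * z = U := by
      apply mul_left_cancel₀ hP
      linear_combination (b * f - c * e) * (b * f + c * e) * d * hx
        + (c * d - a * f) * (c * d + a * f) * e * hy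
        + (a * e - b * d) * (a * e + b * d) * f * hz
    have hV : (b * f - c * e) * (b * f + c * e) * a * x + (c * d - a * f) * (c * d + a * f) * b * y
        + (a * e - b * d) * (a * e + b * d) * c * z = V := by
      apply mul_left_cancel₀ hP
      linear_combination (b * f - c * e) * (b * f + c * e) * a * hx
        + (c * d - a * f) * (c * d + a * f) * b * hy
        + (a * e - b * d) * (a * e + b * d) * c * hz
    refine ⟨h1, ?_⟩
    apply mul_left_cancel₀ hP
    rw [← hU, ← hV] at hUV
    linear_combination hUV - (b * f + c * e) * (c * d + a * f) * (a * e + b * d)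
          * (((b * f - c * e) * x + (c * d - a * f) * y + (a * e - b * d) * z) + 1) * h1

/-- An explicit family in `S`. -/
def fam (t : ℤ) : Matrix (Fin 3) (Fin 3) ℤ :=
  let V := 16 * t ^ 6 + 96 * t ^ 5 + 220 * t ^ 4 + 240 * t ^ 3 + 127 * t ^ 2 + 30 * t + 2
  !![t, t + 1, 2 * t + 1;
     t + 1, t + 2, 2 * t + 3;
     (4 * t ^ 2 + 6 * t + 1) * (2 * t ^ 2 + 4 * t + 1) - t - V * (t + 1),
     (2 * t ^ 2 + 4 * t + 1) * (4 * t ^ 2 + 10 * t + 5) - (t + 1) - V * (t + 2),
     (4 * t ^ 2 + 10 * t + 5) * (4 * t ^ 2 + 6 * t + 1) - (2 * t + 1) - V * (2 * t + 3)]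

lemma fam_mem (t : ℤ) (ht : 2 ≤ t) : fam t ∈ S := by
  have h1 : 0 ≤ t := by linarith
  refine ⟨?_, ?_, ?_⟩
  · have hp : ∀ k : ℕ, 0 ≤ t ^ k := fun k => pow_nonneg h1 k
    intro i j
    have p2 := hp 2
    have p3 := hp 3
    have p4 := hp 4
    have p5 := hp 5
    have p6 := hp 6
    have p7 := hp 7
    fin_cases i <;> fin_cases j <;> simp [fam] <;> rw [le_abs]
    · left; linarith
    · left; linarith
    · left; linarith
    · left; linarith
    · left; linarith
    · left; linarith
    · right; ring_nf; nlinarith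
    · right; ring_nf; nlinarith
    · right; ring_nf; nlinarith
  · simp [fam, Matrix.det_fin_three]; ring
  · simp [fam, Matrix.det_fin_three]; ring

end proof

/-- **Theorem.** (1) A `3 × 3` integer matrix with all entries of absolute value at least `2` lies
in `S` if and only if the three minors of its first two rows are nonzero and its third row is
`P · r₃ = U · r₁ + V · r₂ - (p₂p₃, p₃p₁, p₁p₂)` for integers `U`, `V` with `2 U V = P + D`.
(2) `S` is infinite. -/
theorem result :
    (∀ A : Matrix (Fin 3) (Fin 3) ℤ, A ∈ S ↔ (∀ i j, 2 ≤ |A i j|) ∧ P A ≠ 0 ∧ ThirdRow A) ∧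
      S.Infinite := by
  constructor
  · intro A
    unfold S
    rw [Set.mem_ofPred_eq]
    constructor
    · rintro ⟨hadm, h1, h2⟩
      refine ⟨hadm, ?_⟩
      have hk := (key (a := A 0 0) (b := A 0 1) (c := A 0 2) (d := A 1 0) (e := A 1 1)
        (f := A 1 2) (x := A 2 0) (y := A 2 1) (z := A 2 2)
        ⟨hadm _ _, hadm _ _, hadm _ _, hadm _ _, hadm _ _, hadm _ _⟩).1 (by
          rw [Matrix.det_fin_three] at h1 h2
          simp only [Matrix.map_apply] at h2
          constructor
          · linear_combination h1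
          · linear_combination h2)
      simpa [P, D, ThirdRow, minor, perm] using hk
    · rintro ⟨hadm, hP, hT⟩
      have hk := (key (a := A 0 0) (b := A 0 1) (c := A 0 2) (d := A 1 0) (e := A 1 1)
        (f := A 1 2) (x := A 2 0) (y := A 2 1) (z := A 2 2)
        ⟨hadm _ _, hadm _ _, hadm _ _, hadm _ _, hadm _ _, hadm _ _⟩).2 (by
          simpa [P, D, ThirdRow, minor, perm] using And.intro hP hT)
      refine ⟨hadm, ?_, ?_⟩
      · rw [Matrix.det_fin_three]
        linear_combination hk.1
      · rw [Matrix.det_fin_three]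
        simp only [Matrix.map_apply]
        linear_combination hk.2
  · have hinj : Set.InjOn fam (Set.Ici 2) := by
      intro s _ t _ h
      have := congrFun (congrFun h 0) 0
      simpa [fam] using this
    have := (Set.infinite_image_iff hinj).2 (Set.Ici_infinite (2 : ℤ))
    refine this.mono ?_
    rintro A ⟨t, ht, rfl⟩
    exact fam_mem t ht

end Pool.Agent.Results.MP_197ffd_nt.Description
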